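import Pool.Agent.X154.WHL.F

/-!
# The best constant in the weighted Hardy-Littlewood inequality of Everitt and Guinand

The best constant is `1 / (2 k² - 1)²`, where `k` is the only solution in `(0, 1)` of
`2 E(k) = K(k)` (complete elliptic integrals with modulus `k`); it is attained.
-/

set_option autoImplicit false

open MeasureTheory Set Filter Topology

namespace Pool.Agent.Results.MP_9d0787_an.SharpConstant

open Pool.Agent.X154.WHL

/-- `f` is admissible: it is twice differentiable on `(0, ∞)` and `x f(x)²`, `x f''(x)²` are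
integrable on `(0, ∞)`. -/
def Admissible (f : ℝ → ℝ) : Prop :=
  (∀ x, 0 < x → DifferentiableAt ℝ f x ∧ DifferentiableAt ℝ (deriv f) x) ∧
    IntegrableOn (fun x => x * f x ^ 2) (Ioi 0) ∧
    IntegrableOn (fun x => x * deriv (deriv f) x ^ 2) (Ioi 0)

theorem adm {f : ℝ → ℝ} (h : Admissible f) : Adm f (deriv f) (deriv (deriv f)) :=
  ⟨fun x hx => (h.1 x hx).1.hasDerivAt, fun x hx => (h.1 x hx).2.hasDerivAt,
    (measurable_deriv _).aestronglyMeasurable, h.2.1, h.2.2⟩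

theorem result : ∃ k : ℝ, 0 < k ∧ k < 1 ∧ 1 < 2 * k ^ 2 ∧
    2 * (∫ u in (0 : ℝ)..(Real.pi / 2), √(1 - k ^ 2 * Real.sin u ^ 2)) =
      (∫ u in (0 : ℝ)..(Real.pi / 2), 1 / √(1 - k ^ 2 * Real.sin u ^ 2)) ∧
    (∀ k' : ℝ, 0 < k' → k' < 1 →
      2 * (∫ u in (0 : ℝ)..(Real.pi / 2), √(1 - k' ^ 2 * Real.sin u ^ 2)) =
        (∫ u in (0 : ℝ)..(Real.pi / 2), 1 / √(1 - k' ^ 2 * Real.sin u ^ 2)) → k' = k) ∧
    (∀ f : ℝ → ℝ, Admissible f → IntegrableOn (fun x => x * deriv f x ^ 2) (Ioi 0)) ∧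
    IsLeast {K : ℝ | ∀ f : ℝ → ℝ, Admissible f →
      (∫ x in Ioi 0, x * deriv f x ^ 2) ^ 2 ≤
        K * (∫ x in Ioi 0, x * f x ^ 2) * (∫ x in Ioi 0, x * deriv (deriv f) x ^ 2)}
      (1 / (2 * k ^ 2 - 1) ^ 2) ∧
    ∃ f : ℝ → ℝ, Admissible f ∧
      0 < (∫ x in Ioi 0, x * f x ^ 2) * (∫ x in Ioi 0, x * deriv (deriv f) x ^ 2) ∧
      (∫ x in Ioi 0, x * deriv f x ^ 2) ^ 2 =
        1 / (2 * k ^ 2 - 1) ^ 2 * (∫ x in Ioi 0, x * f x ^ 2) *
          (∫ x in Ioi 0, x * deriv (deriv f) x ^ 2) := by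
  obtain ⟨k, hk0, hk1, hroot, hk2, huniq⟩ := exists_root
  have hp : 0 < (2 * k ^ 2 - 1) ^ 2 := by
    have : 0 < 2 * k ^ 2 - 1 := by linarith
    positivity
  have hd1 : deriv (M k 0) = fun x => -M k 1 x := by
    funext x
    exact (M_deriv hk0 hk1 0 x).deriv
  have hd2 : deriv (deriv (M k 0)) = M k 2 := by
    rw [hd1]
    funext x
    have h1 : HasDerivAt (fun x => -M k 1 x) (- -M k 2 x) x := (M_deriv hk0 hk1 1 x).neg
    rw [h1.deriv, neg_neg]
  have hg := g_adm hk0 hk1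
  have hgA : Admissible (M k 0) := by
    refine ⟨fun x hx => ⟨(hg.hu x hx).differentiableAt, ?_⟩, hg.iu, ?_⟩
    · rw [hd1]
      exact (hg.hv x hx).differentiableAt
    · rw [hd2]
      exact hg.iw
  obtain ⟨e1, e2⟩ := extremal hk0 hk1 hroot hk2
  refine ⟨k, hk0, hk1, hk2, hroot, huniq, fun f hf => (adm hf).iv, ⟨fun f hf => ?_, ?_⟩,
    M k 0, hgA, ?_, ?_⟩
  · have h1 := sharp hk0 hk1 hroot hk2 (adm hf) (measurable_deriv _)
    rw [mul_assoc, one_div_mul_eq_div, le_div_iff₀ hp]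
    linarith
  · intro K hK
    have h1 := hK (M k 0) hgA
    rw [hd2, hd1] at h1
    rw [div_le_iff₀ hp]
    by_contra hneg
    push Not at hneg
    have h2 : K * (2 * k ^ 2 - 1) ^ 2 * ((∫ x in Ioi 0, x * M k 2 x ^ 2) *
        (∫ x in Ioi 0, x * M k 0 x ^ 2)) < 1 * ((∫ x in Ioi 0, x * M k 2 x ^ 2) *
        (∫ x in Ioi 0, x * M k 0 x ^ 2)) := mul_lt_mul_of_pos_right hneg e2
    have h3 := mul_le_mul_of_nonneg_left h1 hp.le
    linarith
  · rw [hd2, mul_comm]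
    exact e2
  · rw [hd2, hd1, mul_assoc, one_div_mul_eq_div, eq_div_iff hp.ne']
    linarith

end Pool.Agent.Results.MP_9d0787_an.SharpConstant
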